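import Mathlib
import Pool.Agent.H13.QAut

/-! The cyclic group of order `n` admits a transitive representation iff `n` is odd. -/

namespace Pool.Agent.Results.MP_8306f4_co.Cyclic

open Pool.Agent.H13.QAut

theorem result (n : ℕ) (hn : 1 ≤ n) : Admits (Multiplicative (ZMod n)) ↔ Odd n := by
  haveI : NeZero n := ⟨by omega⟩
  exact ⟨fun h => odd_of_sum n (necessity _ h), sufficiency n⟩

end Pool.Agent.Results.MP_8306f4_co.Cyclic
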