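import Mathlib
import Pool.Agent.H13.QAut

/-! Additive groups of finite fields with more than two elements. -/

namespace Pool.Agent.Results.MP_8306f4_co.Field

open Pool.Agent.H13.QAut

theorem result (F : Type) [Field F] [Fintype F] (h : 2 < Fintype.card F) :
    Admits (Multiplicative F) := field_case F h

end Pool.Agent.Results.MP_8306f4_co.Field
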